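import Pool.Agent.K1H40.CT.CoreP
import Pool.Agent.K1H40.CT.Unif
import Pool.Agent.K1H33.CT.Top1
import Pool.Agent.K1H68.CT.Top2
import Pool.Agent.K1H99.CT.Top3
import Pool.Agent.K1H89.CT.Van
import Pool.Agent.K1H24.CT.Min
import Pool.Agent.K1H10.CT.Gram
import Pool.Agent.K1H11.CT.Pow

/-!
# Ideals of minors of catalecticant matrices need not be saturated: characteristic zero and all
but finitely many positive characteristics

The definitions are those of `Pool/Agent/W474/Cat/Defs.lean`: `Mon n d` is the type of exponent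
vectors of degree `d` in `n` variables, `minorsIdeal k n i j r` is the ideal of
`S = k[z_γ : |γ| = i + j]` generated by the `(r + 1) × (r + 1)` minors of the catalecticant matrix
`Υ^{i, j}`, and `irrelevant k n d` is the irrelevant ideal `(z_γ : |γ| = d)`.
-/

set_option autoImplicit false

universe u

namespace Pool.Agent.Results.MP_bed02b_ag.LargeCharacteristic

open MvPolynomial Pool.Agent.W474.Cat Pool.Agent.K1H40.CT

/-- There is a finite set `P` of primes such that for every field `k` whose characteristic is not in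
`P` (in particular for every field of characteristic zero) and every `n ≥ 7` the ideal
`Minors_6(Υ^{2,2})` generated by the `7 × 7` minors of the middle catalecticant matrix of quartic
forms in `n` variables is not saturated: a form `f` of degree `7` is not in it, and a power of the
irrelevant ideal multiplies it into it. -/
theorem result : ∃ P : Finset ℕ, (∀ p ∈ P, p.Prime) ∧
    ∀ (k : Type u) [Field k], ringChar k ∉ P → ∀ n : ℕ, 7 ≤ n →
      ∃ f : MvPolynomial (Mon n (2 + 2)) k, f.IsHomogeneous 7 ∧ f ∉ minorsIdeal k n 2 2 6 ∧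
        ∃ N : ℕ, ∀ g ∈ irrelevant k n (2 + 2) ^ N, g * f ∈ minorsIdeal k n 2 2 6 := by
  have hgram : S_GRAM.{0, 0} := Pool.Agent.K1H10.CT.t_GRAM
  have hmin : S_MIN.{0, 0} := Pool.Agent.K1H24.CT.t_MIN
  have htop1 : S_TOP1.{0} := Pool.Agent.K1H33.CT.t_TOP1
  have htop2 : S_TOP2.{0} := Pool.Agent.K1H68.CT.t_TOP2 htop1
  have htop3 : S_TOP3.{0} := Pool.Agent.K1H99.CT.t_TOP3
  have hcore : S_CORE.{0, 0} := t_CORE hmin hgram
  have hpow : S_POW.{0, 0} := Pool.Agent.K1H11.CT.t_POW hcore hgram
  have hvan : S_VAN.{0} := Pool.Agent.K1H89.CT.t_VAN hpow htop2 htop3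
  exact UF.t_UNIF hvan Pool.Agent.K1H24.CT.t_MIN Pool.Agent.K1H33.CT.t_TOP1
    Pool.Agent.K1H99.CT.t_TOP3

end Pool.Agent.Results.MP_bed02b_ag.LargeCharacteristic
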